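import Pool.Agent.L5helper86.EA.Pins2
import Pool.Agent.L5helper86.EA.Ex
import Pool.Agent.L5helper86.EA.Dim

/-!
# Edwards-Anderson ground states on horns in `ℤ^d`: every symmetric law without atoms

The sites are the points of `ℤ^(k + 1)`; the bond `(v, i)` joins `v` and `v + e_i`, as in the frozen
statement of the problem. The definitions are those of `UnboundedWidth`.
-/

set_option autoImplicit false

open MeasureTheory

namespace Pool.Agent.Results.MP_37ff18_mp.HornsEveryLaw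

/-- The horn: the points `v` of `ℤ^(k + 1)` with `v 0 ≥ 0` and `|v i| ≤ w (v 0)` for all `i ≠ 0`. -/
def horn (k : ℕ) (w : ℕ → ℕ) : Set (Fin (k + 1) → ℤ) :=
  {v | 0 ≤ v 0 ∧ ∀ i : Fin k, |v i.succ| ≤ (w (v 0).toNat : ℤ)}

/-- A spin configuration on the region `R`: it is `1` or `-1` at the sites of `R`, and `0` at the
other sites (so that the bonds which leave `R` do not contribute to the energy). -/
def IsConfiguration {k : ℕ} (R : Set (Fin (k + 1) → ℤ)) (σ : (Fin (k + 1) → ℤ) → ℝ) : Prop :=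
  (∀ v ∈ R, σ v = 1 ∨ σ v = -1) ∧ ∀ v, v ∉ R → σ v = 0

/-- `σ` is an infinite-volume ground state on `R` for the couplings `J`: every change at finitely
many sites of `R` (at least one) increases the energy `- ∑ J (v, i) σ v σ (v + e_i)`. -/
def IsGroundState {k : ℕ} (R : Set (Fin (k + 1) → ℤ))
    (J : (Fin (k + 1) → ℤ) × Fin (k + 1) → ℝ) (σ : (Fin (k + 1) → ℤ) → ℝ) : Prop :=
  IsConfiguration R σ ∧ ∀ ρ : (Fin (k + 1) → ℤ) → ℝ, IsConfiguration R ρ →
    {v | ρ v ≠ σ v}.Finite → ρ ≠ σ →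
      0 < ∑ᶠ e : (Fin (k + 1) → ℤ) × Fin (k + 1),
        J e * (σ e.1 * σ (e.1 + (Pi.single e.2 (1 : ℤ) : Fin (k + 1) → ℤ))
          - ρ e.1 * ρ (e.1 + (Pi.single e.2 (1 : ℤ) : Fin (k + 1) → ℤ)))

/-- **Theorem.** Let `k ≥ 1` and let `μ` be any symmetric probability measure on `ℝ` without atoms.
There is `c > 0` with the following property. Let `w` be a nondecreasing sequence of widths with
`w n ^ k * (log (w n + 1)) ^ 2 ≤ c log n` for all large `n`. Then for almost every realisation of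
i.i.d. couplings of law `μ` on the bonds of `ℤ^(k + 1)` there is exactly one pair `σ, -σ` of ground
states on the horn of width `w`. -/
theorem result (k : ℕ) (hk : 1 ≤ k) (μ : Measure ℝ) [IsProbabilityMeasure μ]
    (hatom : ∀ x : ℝ, μ {x} = 0) (hsym : μ.map (fun x => -x) = μ) :
    ∃ c : ℝ, 0 < c ∧ ∀ w : ℕ → ℕ, Monotone w →
      (∀ᶠ n : ℕ in Filter.atTop,
        (w n : ℝ) ^ k * Real.log ((w n : ℝ) + 1) ^ 2 ≤ c * Real.log n) →
      ∀ᵐ J ∂(Measure.infinitePi fun _ : (Fin (k + 1) → ℤ) × Fin (k + 1) => μ),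
        ∃ σ : (Fin (k + 1) → ℤ) → ℝ, {ρ | IsGroundState (horn k w) J ρ} = {σ, -σ} := by
  obtain ⟨y2, N, hy, -, h0, h1⟩ := Pool.Agent.TH761.EA.two_windows μ hatom hsym
  obtain ⟨n0, hn0⟩ := exists_nat_ge y2
  obtain ⟨x1, hx1m, b, hb, hmass⟩ := Pool.Agent.L5helper86.EA.good_point μ
    (A := Set.Ioo 0 y2) (N := n0) (fun x hx => ⟨hx.1.le, lt_of_lt_of_le hx.2 hn0⟩) h0
  have hx1 : 0 < x1 := hx1m.1
  have hxy : x1 < y2 := hx1m.2
  have hci : 0 < μ (Set.Ici y2) := lt_of_lt_of_le h1 (measure_mono fun x hx => hx.1.le)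
  set g : ℝ := (μ (Set.Ici y2)).toReal with hg
  have hgp : 0 < g := ENNReal.toReal_pos hci.ne' (measure_ne_top _ _)
  have hg1 : g ≤ 1 := by
    have := ENNReal.toReal_mono (by simp) (prob_le_one (μ := μ) (s := Set.Ici y2))
    simpa using this
  set β : ℝ := min b g with hβd
  have hβ : 0 < β := lt_min hb hgp
  have hβ1 : β ≤ 1 := (min_le_right _ _).trans hg1
  set x' : ℝ := min x1 1 with hx'd
  have hx' : 0 < x' := lt_min hx1 one_pos
  set h : ℕ := ⌈16 * (x1 / (y2 - x1))⌉₊ + 1 with hh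
  have hhh : 16 * (x1 / (y2 - x1)) ≤ h := by
    rw [hh]; push_cast
    linarith [Nat.le_ceil (16 * (x1 / (y2 - x1)))]
  obtain ⟨C0, hC0, hnum⟩ := Pool.Agent.L5helper86.EA.numeric2 k h hx' (min_le_right _ _) hβ hβ1
  obtain ⟨c, hc, hlong⟩ := Pool.Agent.L5helper86.EA.long2 hk hC0
  refine ⟨c, hc, fun w hw hgr => ?_⟩
  have hsymI : ∀ δ : ℝ, μ (Set.Icc (-1 * x1 - δ) (-1 * x1 + δ)) = μ (Set.Icc (x1 - δ) (x1 + δ)) := by
    intro δ
    conv_rhs => rw [← hsym]
    rw [Measure.map_apply measurable_neg measurableSet_Icc]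
    congr 1
    ext y
    simp only [Set.mem_preimage, Set.mem_Icc]
    constructor
    · rintro ⟨a1, a2⟩; constructor <;> linarith
    · rintro ⟨a1, a2⟩; constructor <;> linarith
  have hpins := Pool.Agent.L5helper86.EA.pins2 μ (k := k) (w := w) (C0 := C0) (x1 := x1) (y2 := y2)
    (h := h) hx' (min_le_right _ _) hβ hnum (hlong w hw hgr) (fun δ hδ hδ1 e he => by
      have e1 : ENNReal.ofReal (β * δ ^ 2) ≤ μ (Set.Icc (x1 - δ) (x1 + δ)) :=
        (ENNReal.ofReal_le_ofReal (mul_le_mul_of_nonneg_right (min_le_left _ _)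
          (by positivity))).trans (hmass δ hδ hδ1)
      rcases he with rfl | rfl
      · rw [one_mul]; exact e1
      · rw [hsymI]; exact e1) (by
      rw [← ENNReal.ofReal_toReal (measure_ne_top μ (Set.Ici y2))]
      exact ENNReal.ofReal_le_ofReal (min_le_right _ _))
  filter_upwards [Pool.Agent.TH761.EB.gen_ae μ hatom ((Fin (k + 1) → ℤ) × Fin (k + 1)), hpins]
    with J hgen hp
  obtain ⟨σ, hσ⟩ := Pool.Agent.TH761.EB.exists_gs (a := Pool.Agent.TH761.EB.aa)
    (b := Pool.Agent.TH761.EB.bb) (R := horn k w) Pool.Agent.TH761.EB.horn_fib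
    (Pool.Agent.TH761.EB.horn_front hw) hgen
  refine ⟨σ, ?_⟩
  ext ρ
  constructor
  · intro hρ
    refine Pool.Agent.L5helper86.EA.unique_pair (w := w) (J := J) hσ hρ fun n0 => ?_
    obtain ⟨z, m, L, j, hj, hL, hst, hT⟩ := hp n0
    have hcB : (1 : ℝ) ≤ Fintype.card (Pool.Agent.TH761.EB.Bx k m) := by
      rw [Pool.Agent.TH761.EB.card_Bx]
      push_cast
      apply one_le_pow₀
      have : (0 : ℝ) ≤ m := Nat.cast_nonneg m
      linarith
    have hL0 : (0 : ℝ) ≤ L := Nat.cast_nonneg L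
    have hden : 0 < 4 * (Fintype.card (Pool.Agent.TH761.EB.Bx k m) : ℝ) * (2 * L + 1) := by
      positivity
    obtain ⟨n, hn1, hn2, hn3, hn4⟩ := Pool.Agent.L5helper86.EA.slice_of_tr hx1 hxy
      (by positivity) (by
        refine le_trans (le_of_eq ?_) (min_le_left x1 1)
        rw [← hx'd]
        field_simp) hhh (by omega) hj hL
      (fun n a1 a2 => ⟨by have := (hst n a1 a2).1; omega, (hst n a1 a2).2⟩) hT hσ hρ
    exact ⟨n, (hst n hn1 hn2).1, hn3, hn4⟩
  · rintro (h | h)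
    · rw [h]; exact hσ
    · rw [h]; exact hσ.neg

end Pool.Agent.Results.MP_37ff18_mp.HornsEveryLaw
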