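import Pool.Agent.Help40.EA.Box

/-!
# Edwards-Anderson ground states on `ℤ^d`: no local rule finds them

For iid symmetric atomless couplings on the bonds of `ℤ^d`, `d ≥ 2`, consider any rule that guesses
which bonds are satisfied in the ground state from the couplings at distance at most `r`. In the box
of radius `n` the guess is wrong with probability at least of order `n / r`, both for ground states
of the whole lattice and for ground states of large boxes with arbitrary boundary conditions. In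
particular, if the ground states are determined by the couplings at a random finite distance, then
this distance has infinite mean.

Idea of the proof. The signs of the couplings on the bonds that cross half a hyperplane are changed.
Away from its edge, the half hyperplane looks, from the box of radius `r`, like nothing or like a
full hyperplane, whose effect is a change of the signs of the spins on one side. If the rule were
right along a square around the edge, for the couplings before and after each of these changes (which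
do not change the law), then the set where the two ground states differ would cross the square an
odd number of times.
-/

set_option autoImplicit false

open MeasureTheory Filter Topology

namespace Pool.Agent.Results.MP_37ff18_mp.NoLocalRule

/-- `σ` is an infinite-volume ground state for the couplings `J`; the bond `(v, i)` joins `v` and
`v + e_i`. Every change at finitely many sites (at least one) increases the energy
`-∑ J_e σ σ` (the sum of the differences over all bonds is a finite sum). -/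
def IsGroundState {d : ℕ} (J : (Fin d → ℤ) × Fin d → ℝ) (σ : (Fin d → ℤ) → ℝ) : Prop :=
  (∀ x, σ x = 1 ∨ σ x = -1) ∧
  ∀ ρ : (Fin d → ℤ) → ℝ, (∀ x, ρ x = 1 ∨ ρ x = -1) → {x | ρ x ≠ σ x}.Finite → ρ ≠ σ →
    0 < ∑ᶠ e : (Fin d → ℤ) × Fin d,
      J e * (σ e.1 * σ (e.1 + (Pi.single e.2 (1 : ℤ) : Fin d → ℤ))
        - ρ e.1 * ρ (e.1 + (Pi.single e.2 (1 : ℤ) : Fin d → ℤ)))

/-- `σ` is the ground state of the box of radius `M` around `0` with the boundary condition `η`: it
agrees with `η` outside of the box, and every change at sites of the box (at least one) increases the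
energy. -/
def IsGroundStateOfBox {d : ℕ} (M : ℕ) (η : (Fin d → ℤ) → ℝ) (J : (Fin d → ℤ) × Fin d → ℝ)
    (σ : (Fin d → ℤ) → ℝ) : Prop :=
  ((∀ x, σ x = 1 ∨ σ x = -1) ∧
  ∀ ρ : (Fin d → ℤ) → ℝ, (∀ x, ρ x = 1 ∨ ρ x = -1) →
    (∀ x, ρ x ≠ σ x → ∀ i, |x i| ≤ M) → ρ ≠ σ →
    0 < ∑ᶠ e : (Fin d → ℤ) × Fin d,
      J e * (σ e.1 * σ (e.1 + (Pi.single e.2 (1 : ℤ) : Fin d → ℤ))
        - ρ e.1 * ρ (e.1 + (Pi.single e.2 (1 : ℤ) : Fin d → ℤ)))) ∧
  ∀ x : Fin d → ℤ, ¬ (∀ i, |x i| ≤ M) → σ x = η x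

/-- The rule `F` (which gives a guess `F J e` for the product of the spins at the ends of every bond
`e`) uses only the couplings of the bonds with an end in the box of radius `r` around `w`. -/
def UsesOnly {d : ℕ} (F : ((Fin d → ℤ) × Fin d → ℝ) → (Fin d → ℤ) × Fin d → ℝ)
    (w : Fin d → ℤ) (r : ℕ) : Prop :=
  ∀ J J' : (Fin d → ℤ) × Fin d → ℝ,
    (∀ e : (Fin d → ℤ) × Fin d, ((∀ i, |e.1 i - w i| ≤ r) ∨
      ∀ i, |(e.1 + (Pi.single e.2 (1 : ℤ) : Fin d → ℤ)) i - w i| ≤ r) → J e = J' e) →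
    ∀ e, F J e = F J' e

/-- The guess `F J` is wrong, for the configuration `σ`, on some bond `(v, i)` with `v` in the box of
radius `n` around `w`. -/
def Wrong {d : ℕ} (F : ((Fin d → ℤ) × Fin d → ℝ) → (Fin d → ℤ) × Fin d → ℝ) (w : Fin d → ℤ)
    (n : ℕ) (J : (Fin d → ℤ) × Fin d → ℝ) (σ : (Fin d → ℤ) → ℝ) : Prop :=
  ∃ e : (Fin d → ℤ) × Fin d, (∀ i, |e.1 i - w i| ≤ n) ∧
    F J e ≠ σ e.1 * σ (e.1 + (Pi.single e.2 (1 : ℤ) : Fin d → ℤ))

open Pool.Agent.R239.EA Pool.Agent.Help40.EA

lemma ga_iff {d : ℕ} {J : (Fin d → ℤ) × Fin d → ℝ} {σ : (Fin d → ℤ) → ℝ} :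
    IsGroundState J σ ↔ GA J σ := by
  rw [GA_iff]
  rfl

lemma bg_iff {d : ℕ} {J : (Fin d → ℤ) × Fin d → ℝ} {M : ℕ} {η σ : (Fin d → ℤ) → ℝ} :
    IsGroundStateOfBox M η J σ ↔ BG M η J σ := by
  unfold IsGroundStateOfBox BG
  rw [GI_iff]
  simp only [mem_bx', Pi.zero_apply, sub_zero]
  rfl

lemma uses_loc {d : ℕ} {F : ((Fin d → ℤ) × Fin d → ℝ) → (Fin d → ℤ) × Fin d → ℝ}
    {w : Fin d → ℤ} {r : ℕ} (h : UsesOnly F w r) (J J' : (Fin d → ℤ) × Fin d → ℝ)
    (hJ : ∀ e ∈ tb w r, J e = J' e) (e : (Fin d → ℤ) × Fin d) : F J e = F J' e := by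
  refine h J J' (fun f hf => hJ f ?_) e
  rw [mem_tb, mem_bx', mem_bx']
  exact hf

lemma inv_le_of {m : ℕ} (hm : m ≠ 0) {q : ENNReal} (h : 1 ≤ ((8 * m : ℕ) : ENNReal) * q) :
    ((8 * m : ℕ) : ENNReal)⁻¹ ≤ q := by
  have h8 : ((8 * m : ℕ) : ENNReal) ≠ 0 := by
    rw [Ne, Nat.cast_eq_zero]
    omega
  have h8' : ((8 * m : ℕ) : ENNReal) ≠ ⊤ := ENNReal.natCast_ne_top _
  calc ((8 * m : ℕ) : ENNReal)⁻¹ = ((8 * m : ℕ) : ENNReal)⁻¹ * 1 := (mul_one _).symm
    _ ≤ ((8 * m : ℕ) : ENNReal)⁻¹ * (((8 * m : ℕ) : ENNReal) * q) := by gcongr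
    _ = q := by rw [← mul_assoc, ENNReal.inv_mul_cancel h8 h8', one_mul]

/-- Let the couplings on the bonds of `ℤ^d`, `d ≥ 2`, be iid with an atomless symmetric law `μ`, and
let `n ≤ r` and `2 r + 3 ≤ m (2 n + 1)`.

(1) For every rule that uses only the couplings in the box of radius `r` around `0`, the probability
that the guess is wrong, on a bond in the box of radius `n` around `0`, for some ground state of
`ℤ^d`, is at least `1 / (8 m)`.

(2) Let `η` be any boundary condition and let `F w` be rules that use only the couplings in the boxes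
of radius `r` around `w`. In every cube of radius `m (2 n + 1)` inside the box of radius
`M - r - 1` there is a point `w` such that the guess of `F w` is wrong for the ground state of the
box of radius `M` with the boundary condition `η`, on a bond in the box of radius `n` around `w`,
with probability at least `1 / (8 m)`.

(3) Let `R` be a random distance such that almost surely, for all `r ≥ R`, the products of the spins
on the bonds `(0, i)` are the same in all ground states of `ℤ^d` and are given by a rule that uses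
only the couplings in the box of radius `r` around `0`. Then `R > r` with probability at least
`1 / (16 r + 24)`, for every `r`, and `R` has infinite mean. -/
theorem result (d : ℕ) (hd : 2 ≤ d) (μ : Measure ℝ) [IsProbabilityMeasure μ]
    (hμ : ∀ x, μ {x} = 0) (hsym : μ.map (fun x => -x) = μ)
    (P : Measure ((Fin d → ℤ) × Fin d → ℝ))
    (hP : P = Measure.infinitePi fun _ : (Fin d → ℤ) × Fin d => μ) :
    (∀ n r m : ℕ, n ≤ r → 2 * r + 3 ≤ m * (2 * n + 1) →
      ∀ F : ((Fin d → ℤ) × Fin d → ℝ) → (Fin d → ℤ) × Fin d → ℝ, UsesOnly F 0 r →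
        ((8 * m : ℕ) : ENNReal)⁻¹ ≤ P {J | ∃ σ, IsGroundState J σ ∧ Wrong F 0 n J σ}) ∧
    (∀ n r m : ℕ, n ≤ r → 2 * r + 3 ≤ m * (2 * n + 1) →
      ∀ F : (Fin d → ℤ) → ((Fin d → ℤ) × Fin d → ℝ) → (Fin d → ℤ) × Fin d → ℝ,
        (∀ w, UsesOnly (F w) w r) → ∀ (M : ℕ) (η : (Fin d → ℤ) → ℝ),
        (∀ x, η x = 1 ∨ η x = -1) → ∀ c : Fin d → ℤ,
        (∀ i, |c i| + (m * (2 * n + 1) + r + 1 : ℕ) ≤ M) →
        ∃ w : Fin d → ℤ, (∀ i, |w i - c i| ≤ m * (2 * n + 1)) ∧
          ((8 * m : ℕ) : ENNReal)⁻¹ ≤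
            P {J | ∃ σ, IsGroundStateOfBox M η J σ ∧ Wrong (F w) w n J σ}) ∧
    ∀ (R : ((Fin d → ℤ) × Fin d → ℝ) → ℕ), Measurable R →
      ∀ F : ℕ → ((Fin d → ℤ) × Fin d → ℝ) → (Fin d → ℤ) × Fin d → ℝ,
        (∀ r, UsesOnly (F r) 0 r) →
        (∀ᵐ J ∂P, ∀ r, R J ≤ r → ∀ σ, IsGroundState J σ → ¬ Wrong (F r) 0 0 J σ) →
        (∀ r : ℕ, ((16 * r + 24 : ℕ) : ENNReal)⁻¹ ≤ P {J | r < R J}) ∧
          ∫⁻ J, (R J : ENNReal) ∂P = ⊤ := by
  have hPL : P = Lw μ d := hP
  have hm0 : ∀ n r m : ℕ, 2 * r + 3 ≤ m * (2 * n + 1) → m ≠ 0 := by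
    rintro n r m h rfl
    omega
  have part1 : ∀ n r m : ℕ, n ≤ r → 2 * r + 3 ≤ m * (2 * n + 1) →
      ∀ F : ((Fin d → ℤ) × Fin d → ℝ) → (Fin d → ℤ) × Fin d → ℝ, UsesOnly F 0 r →
        ((8 * m : ℕ) : ENNReal)⁻¹ ≤ P {J | ∃ σ, IsGroundState J σ ∧ Wrong F 0 n J σ} := by
    intro n r m hnr hm F hF
    have h1 := rule_inf (d := d) μ hd hμ hsym hnr hm (F := F) (fun J J' h => uses_loc hF J J' h)
    have h2 : {J | ErA (fun _ => F) n 0 J} = {J | ∃ σ, IsGroundState J σ ∧ Wrong F 0 n J σ} := by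
      ext J
      unfold ErA Wrong
      simp only [Set.mem_ofPred_eq, ga_iff, nrm_le, Pi.sub_apply]
      rfl
    rw [h2, ← hPL] at h1
    exact inv_le_of (hm0 n r m hm) h1
  refine ⟨part1, ?_, ?_⟩
  · intro n r m hnr hm F hF M η hη c hc
    have hM : nrm c + m * (2 * n + 1) + r + 1 ≤ M := by
      have hK : m * (2 * n + 1) + r + 1 ≤ M := by
        have h1 := hc ⟨0, by omega⟩
        have h2 := abs_nonneg (c ⟨0, by omega⟩)
        have h3 : ((m * (2 * n + 1) + r + 1 : ℕ) : ℤ) ≤ M := by linarith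
        exact_mod_cast h3
      have h1 : nrm c ≤ M - (m * (2 * n + 1) + r + 1) := by
        rw [nrm_le]
        intro i
        rw [Nat.cast_sub hK]
        have := hc i
        linarith
      omega
    obtain ⟨w, hw, h1⟩ := rule_box (d := d) μ hd hμ hsym hη (c := c) hnr hm hM (F := F)
      (fun w J J' h => uses_loc (hF w) J J' h)
    refine ⟨w, hw, ?_⟩
    have h2 : {J | Er M η F n w J} =
        {J | ∃ σ, IsGroundStateOfBox M η J σ ∧ Wrong (F w) w n J σ} := by
      ext J
      unfold Er Wrong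
      simp only [Set.mem_ofPred_eq, bg_iff, nrm_le, Pi.sub_apply]
      rfl
    rw [h2, ← hPL] at h1
    exact h1
  · intro R hR F hF hae
    have htail : ∀ r : ℕ, ((16 * r + 24 : ℕ) : ENNReal)⁻¹ ≤ P {J | r < R J} := by
      intro r
      have h1 := part1 0 r (2 * r + 3) (Nat.zero_le r) (by omega) (F r) (hF r)
      have h2 : 8 * (2 * r + 3) = 16 * r + 24 := by ring
      rw [h2] at h1
      refine h1.trans (measure_mono_ae ?_)
      filter_upwards [hae] with J hJ
      rintro ⟨σ, hσ, hw⟩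
      show r < R J
      by_contra hc
      exact hJ r (not_lt.1 hc) σ hσ hw
    exact ⟨htail, tail_inf P hR htail⟩

end Pool.Agent.Results.MP_37ff18_mp.NoLocalRule
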