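import Pool.Agent.L5helper98.EA.Fin

/-!
# Edwards-Anderson ground states on `ℤ^d` and the minimal spanning forest

For iid couplings on the bonds of `ℤ^d`, `d ≥ 2` arbitrary, whose law is spread over many scales, all
ground states, in finite boxes with arbitrary boundary conditions and in infinite volume, agree on all
but an arbitrarily small fraction of the bonds whose ends belong to the same tree of the spanning
forest of the strongest bonds; they satisfy all but an arbitrarily small fraction of the bonds of the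
forest, and the bonds which are satisfied in all ground states make up a fraction of at least
`(1 - ε) / d` of all bonds.

The case `d = 2` (where the forest is a tree) was the theorem `NearUniquenessPlane`; the proof there
uses planar duality at the critical point. Here it is replaced by the uniformity in the law of the
probabilities of the events which depend on the order of the strengths only, and by a maximal
inequality for averages over boxes.
-/

set_option autoImplicit false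

open MeasureTheory Filter

namespace Pool.Agent.Results.MP_37ff18_mp.SpanningForest

/-- The upper end of the bond `(v, i)`, which joins the sites `v` and `v + e_i` of `ℤ^d`. -/
def upper {d : ℕ} (e : (Fin d → ℤ) × Fin d) : Fin d → ℤ := e.1 + (Pi.single e.2 (1 : ℤ) : Fin d → ℤ)

/-- `σ` is an infinite-volume ground state for the couplings `J`: every change at finitely many
sites (at least one) increases the energy `-∑ J_e σ σ` (the sum of the differences over all bonds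
is a finite sum). -/
def IsGroundState {d : ℕ} (J : (Fin d → ℤ) × Fin d → ℝ) (σ : (Fin d → ℤ) → ℝ) : Prop :=
  (∀ x, σ x = 1 ∨ σ x = -1) ∧
  ∀ ρ : (Fin d → ℤ) → ℝ, (∀ x, ρ x = 1 ∨ ρ x = -1) → {x | ρ x ≠ σ x}.Finite → ρ ≠ σ →
    0 < ∑ᶠ e : (Fin d → ℤ) × Fin d, J e * (σ e.1 * σ (upper e) - ρ e.1 * ρ (upper e))

/-- `σ` is a ground state in the box of radius `n` for the boundary condition given by its own values
outside the box: every change at sites of the box only (at least one) increases the energy. -/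
def IsGroundStateIn {d : ℕ} (J : (Fin d → ℤ) × Fin d → ℝ) (n : ℕ) (σ : (Fin d → ℤ) → ℝ) : Prop :=
  (∀ x, σ x = 1 ∨ σ x = -1) ∧
  ∀ ρ : (Fin d → ℤ) → ℝ, (∀ x, ρ x = 1 ∨ ρ x = -1) →
    (∀ x, ρ x ≠ σ x → ∀ i, |x i| ≤ n) → ρ ≠ σ →
    0 < ∑ᶠ e : (Fin d → ℤ) × Fin d, J e * (σ e.1 * σ (upper e) - ρ e.1 * ρ (upper e))

/-- The bonds between the finite set `A` of sites and its complement. -/
def boundary {d : ℕ} (A : Finset (Fin d → ℤ)) : Set ((Fin d → ℤ) × Fin d) :=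
  {e | (e.1 ∈ A ∧ upper e ∉ A) ∨ (e.1 ∉ A ∧ upper e ∈ A)}

/-- The spanning forest of the couplings `J`: the bonds `e` which are the strongest bond (with the
largest `|J_e|`) between some finite set of sites and its complement. -/
def forest {d : ℕ} (J : (Fin d → ℤ) × Fin d → ℝ) : Set ((Fin d → ℤ) × Fin d) :=
  {e | ∃ A : Finset (Fin d → ℤ), e ∈ boundary A ∧ ∀ f ∈ boundary A, f ≠ e → |J f| < |J e|}

/-- `u` and `v` belong to the same tree: they are joined by a path of bonds of the forest. -/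
def SameTree {d : ℕ} (J : (Fin d → ℤ) × Fin d → ℝ) (u v : Fin d → ℤ) : Prop :=
  Relation.ReflTransGen
    (fun x y => ∃ e ∈ forest J, (e.1 = x ∧ upper e = y) ∨ (e.1 = y ∧ upper e = x)) u v

/-- In the box of radius `n` (bonds `(v, i)` with `|v| ≤ n`):

(a) at most `ε (2 n + 1) ^ d` bonds, among those whose ends belong to the same tree of the forest, are
satisfied in one ground state of the box and not in another one, for any boundary conditions;
(b) at most `ε (2 n + 1) ^ d` bonds of the forest are not satisfied in all these ground states;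
(c) at least `(1 - ε) (2 n + 1) ^ d` bonds (of the forest) are satisfied in all of them.

(The number of the bonds is `d (2 n + 1) ^ d`.) -/
def Rigid {d : ℕ} (J : (Fin d → ℤ) × Fin d → ℝ) (n : ℕ) (ε : ℝ) : Prop :=
  ({e : (Fin d → ℤ) × Fin d | (∀ i, |e.1 i| ≤ n) ∧ SameTree J e.1 (upper e) ∧
    ∃ σ τ, IsGroundStateIn J n σ ∧ IsGroundStateIn J n τ ∧
      σ e.1 * σ (upper e) ≠ τ e.1 * τ (upper e)}.ncard : ℝ) ≤ ε * (2 * (n : ℝ) + 1) ^ d ∧
  ({e : (Fin d → ℤ) × Fin d | (∀ i, |e.1 i| ≤ n) ∧ e ∈ forest J ∧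
    ∃ σ, IsGroundStateIn J n σ ∧ J e * (σ e.1 * σ (upper e)) ≤ 0}.ncard : ℝ) ≤
      ε * (2 * (n : ℝ) + 1) ^ d ∧
  (1 - ε) * (2 * (n : ℝ) + 1) ^ d ≤ ({e : (Fin d → ℤ) × Fin d | (∀ i, |e.1 i| ≤ n) ∧
    e ∈ forest J ∧ ∀ σ, IsGroundStateIn J n σ → 0 < J e * (σ e.1 * σ (upper e))}.ncard : ℝ)

open Pool.Agent.L5helper98.EA

lemma boundary_eq {d : ℕ} (A : Finset (Fin d → ℤ)) : boundary A = cut A := rfl

lemma forest_eq {d : ℕ} (J : (Fin d → ℤ) × Fin d → ℝ) : forest J = Frs (ab J) := rfl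

lemma sameTree_eq {d : ℕ} (J : (Fin d → ℤ) × Fin d → ℝ) (u v : Fin d → ℤ) :
    SameTree J u v = Reach (Frs (ab J)) u v := rfl

lemma gsc_of {d : ℕ} {J : (Fin d → ℤ) × Fin d → ℝ} {n : ℕ} {σ : (Fin d → ℤ) → ℝ}
    (h : IsGroundStateIn J n σ) : GSC n J σ := by
  classical
  refine ⟨fun v => h.1 _, fun A hAn hA => ?_⟩
  set ρ : (Fin d → ℤ) → ℝ := fun x => if x ∈ A then -σ x else σ x with hρ
  have hσ0 : ∀ x, σ x ≠ 0 := fun x => by rcases h.1 x with h1 | h1 <;> rw [h1] <;> norm_num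
  have h1 : ∀ x, ρ x = 1 ∨ ρ x = -1 := by
    intro x
    simp only [hρ]
    split_ifs
    · rcases h.1 x with h1 | h1 <;> rw [h1] <;> simp
    · exact h.1 x
  have h2 : ∀ x, ρ x ≠ σ x → ∀ i, |x i| ≤ n := by
    intro x hx
    have hxA : x ∈ A := by
      by_contra hc
      apply hx
      simp only [hρ]
      rw [if_neg hc]
    exact mem_Bx.1 (hAn hxA)
  have h3 : ρ ≠ σ := by
    obtain ⟨v, hv⟩ := hA
    intro hc
    have h4 := congrFun hc v
    simp only [hρ] at h4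
    rw [if_pos hv] at h4
    have := hσ0 v
    apply this
    linarith
  have h4 := h.2 ρ h1 h2 h3
  have h6 : ∀ e : (Fin d → ℤ) × Fin d, J e * (σ e.1 * σ (upper e) - ρ e.1 * ρ (upper e)) =
      if e ∈ cut A then 2 * (J e * (σ e.1 * σ (upper e))) else 0 := by
    intro e
    have hcut : e ∈ cut A ↔ (e.1 ∈ A ∧ upper e ∉ A) ∨ (e.1 ∉ A ∧ upper e ∈ A) := Iff.rfl
    simp only [hρ, hcut]
    by_cases c1 : e.1 ∈ A <;> by_cases c2 : upper e ∈ A <;> simp [c1, c2] <;> ring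
  rw [finsum_congr h6] at h4
  have h7 : ∑ᶠ e : (Fin d → ℤ) × Fin d, (if e ∈ cut A then 2 * (J e * (σ e.1 * σ (upper e)))
      else 0) = 2 * ∑ᶠ e ∈ cut A, J e * (σ e.1 * σ (tg e)) := by
    rw [finsum_mem_eq_finite_toFinset_sum _ (cut_finite A), Finset.mul_sum,
      finsum_eq_sum_of_support_subset (s := (cut_finite A).toFinset)]
    · refine Finset.sum_congr rfl fun e he => ?_
      rw [if_pos ((cut_finite A).mem_toFinset.1 he)]
      rfl
    · intro e he
      rw [Function.mem_support] at he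
      rw [Finset.mem_coe, Set.Finite.mem_toFinset]
      by_contra hc
      exact he (if_neg hc)
  rw [h7] at h4
  linarith

lemma rigid_of {d : ℕ} {J : (Fin d → ℤ) × Fin d → ℝ} {n : ℕ} {ε : ℝ}
    (h : ({e : (Fin d → ℤ) × Fin d | e.1 ∈ Bx d n ∧ Reach (Frs (ab J)) e.1 (tg e) ∧
        ∃ σ τ, GSC n J σ ∧ GSC n J τ ∧ σ e.1 * σ (tg e) ≠ τ e.1 * τ (tg e)}.ncard : ℝ) ≤
          ε * (2 * (n : ℝ) + 1) ^ d ∧
      ({e : (Fin d → ℤ) × Fin d | e.1 ∈ Bx d n ∧ e ∈ Frs (ab J) ∧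
        ∃ σ, GSC n J σ ∧ J e * (σ e.1 * σ (tg e)) ≤ 0}.ncard : ℝ) ≤ ε * (2 * (n : ℝ) + 1) ^ d ∧
      (1 - ε) * (2 * (n : ℝ) + 1) ^ d ≤ ({e : (Fin d → ℤ) × Fin d | e.1 ∈ Bx d n ∧
        e ∈ Frs (ab J) ∧ ∀ σ, GSC n J σ → 0 < J e * (σ e.1 * σ (tg e))}.ncard : ℝ)) :
    Rigid J n ε := by
  obtain ⟨h1, h2, h3⟩ := h
  have hfin : {e : (Fin d → ℤ) × Fin d | e.1 ∈ Bx d n}.Finite := by
    refine (BB d n).finite_toSet.subset fun e he => ?_
    rw [Finset.mem_coe, mem_BB]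
    exact mem_Bx.1 he
  refine ⟨le_trans ?_ h1, le_trans ?_ h2, h3.trans ?_⟩
  · have : {e : (Fin d → ℤ) × Fin d | (∀ i, |e.1 i| ≤ n) ∧ SameTree J e.1 (upper e) ∧
        ∃ σ τ, IsGroundStateIn J n σ ∧ IsGroundStateIn J n τ ∧
          σ e.1 * σ (upper e) ≠ τ e.1 * τ (upper e)} ⊆
      {e : (Fin d → ℤ) × Fin d | e.1 ∈ Bx d n ∧ Reach (Frs (ab J)) e.1 (tg e) ∧
        ∃ σ τ, GSC n J σ ∧ GSC n J τ ∧ σ e.1 * σ (tg e) ≠ τ e.1 * τ (tg e)} := by
      rintro e ⟨g1, g2, σ, τ, g3, g4, g5⟩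
      exact ⟨mem_Bx.2 g1, g2, σ, τ, gsc_of g3, gsc_of g4, g5⟩
    exact_mod_cast Set.ncard_le_ncard this (hfin.subset fun e he => he.1)
  · have : {e : (Fin d → ℤ) × Fin d | (∀ i, |e.1 i| ≤ n) ∧ e ∈ forest J ∧
        ∃ σ, IsGroundStateIn J n σ ∧ J e * (σ e.1 * σ (upper e)) ≤ 0} ⊆
      {e : (Fin d → ℤ) × Fin d | e.1 ∈ Bx d n ∧ e ∈ Frs (ab J) ∧
        ∃ σ, GSC n J σ ∧ J e * (σ e.1 * σ (tg e)) ≤ 0} := by
      rintro e ⟨g1, g2, σ, g3, g5⟩
      exact ⟨mem_Bx.2 g1, g2, σ, gsc_of g3, g5⟩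
    exact_mod_cast Set.ncard_le_ncard this (hfin.subset fun e he => he.1)
  · have : {e : (Fin d → ℤ) × Fin d | e.1 ∈ Bx d n ∧
        e ∈ Frs (ab J) ∧ ∀ σ, GSC n J σ → 0 < J e * (σ e.1 * σ (tg e))} ⊆
      {e : (Fin d → ℤ) × Fin d | (∀ i, |e.1 i| ≤ n) ∧
        e ∈ forest J ∧ ∀ σ, IsGroundStateIn J n σ → 0 < J e * (σ e.1 * σ (upper e))} := by
      rintro e ⟨g1, g2, g3⟩
      exact ⟨mem_Bx.1 g1, g2, fun σ hσ => g3 σ (gsc_of hσ)⟩
    exact_mod_cast Set.ncard_le_ncard this (hfin.subset fun e he => mem_Bx.2 he.1)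

/-- Let `d ≥ 2`. Infinite-volume ground states are ground states in every box. Let `ε > 0`.

(1) There are `K, δ > 0` such that, for every atomless law `μ` on `ℝ` for which the absolute values of
two independent couplings are within a factor `K` of each other with probability at most `δ`, almost
surely the assertions (a), (b), (c) of `Rigid` hold in all large boxes.

(2) Let `μ` be any atomless law on `ℝ`. For all large `t` the same holds for the couplings
`sign(J) |J|^t` with `J` iid of law `μ`. -/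
theorem result (d : ℕ) (hd : 2 ≤ d) :
    (∀ (J : (Fin d → ℤ) × Fin d → ℝ) (σ : (Fin d → ℤ) → ℝ), IsGroundState J σ →
      ∀ n, IsGroundStateIn J n σ) ∧
    ∀ ε : ℝ, 0 < ε →
    (∃ K δ : ℝ, 0 < K ∧ 0 < δ ∧
      ∀ (μ : Measure ℝ) [IsProbabilityMeasure μ], (∀ x, μ {x} = 0) →
      (μ.prod μ).real {p : ℝ × ℝ | |p.1| ≤ K * |p.2| ∧ |p.2| ≤ K * |p.1|} ≤ δ →
      ∀ᵐ J ∂(Measure.infinitePi fun _ : (Fin d → ℤ) × Fin d => μ), ∃ n₀ : ℕ, ∀ n : ℕ, n₀ ≤ n →
        Rigid J n ε) ∧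
    ∀ (μ : Measure ℝ) [IsProbabilityMeasure μ], (∀ x, μ {x} = 0) → ∃ t₀ : ℝ, 0 < t₀ ∧
      ∀ t : ℝ, t₀ ≤ t →
      ∀ᵐ J ∂(Measure.infinitePi fun _ : (Fin d → ℤ) × Fin d => μ), ∃ n₀ : ℕ, ∀ n : ℕ, n₀ ≤ n →
        Rigid (fun e => Real.sign (J e) * |J e| ^ t) n ε := by
  refine ⟨fun J σ h n => ⟨h.1, fun ρ h1 h2 h3 => h.2 ρ h1 ?_ h3⟩, fun ε hε => ?_⟩
  · refine (Bx d n).finite_toSet.subset fun x hx => ?_
    rw [Finset.mem_coe, mem_Bx]
    exact h2 x hx
  obtain ⟨K, δ, hK, hδ, h⟩ := near hd ε hε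
  refine ⟨⟨K, δ, hK, hδ, fun μ _ hat hμ => ?_⟩, fun μ _ hat => ?_⟩
  · filter_upwards [h μ hat hμ] with J hJ
    obtain ⟨n₀, hn₀⟩ := hJ.exists_forall_of_atTop
    exact ⟨n₀, fun n hn => rigid_of (hn₀ n hn)⟩
  · obtain ⟨t₀, ht₀, hp⟩ := pow_spread μ hat K δ hK hδ
    refine ⟨t₀, ht₀, fun t ht => ?_⟩
    obtain ⟨p1, p2, p3⟩ := hp t ht
    have h1 := h (μ.map (pw t)) p2 p3
    have hm : Measurable (pw t) := pw_meas t
    have h2 := Measure.infinitePi_map_pi (μ := fun _ : (Fin d → ℤ) × Fin d => μ)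
      (f := fun _ => pw t) (fun _ => hm)
    have h3 : PJ d (μ.map (pw t)) = Measure.map (fun J e => pw t (J e))
        (Measure.infinitePi fun _ : (Fin d → ℤ) × Fin d => μ) := h2.symm
    rw [h3] at h1
    have hm2 : Measurable (fun (J : (Fin d → ℤ) × Fin d → ℝ) (e : (Fin d → ℤ) × Fin d) =>
        pw t (J e)) := measurable_pi_lambda _ fun e => hm.comp (measurable_pi_apply e)
    filter_upwards [ae_of_ae_map hm2.aemeasurable h1] with J hJ
    obtain ⟨n₀, hn₀⟩ := hJ.exists_forall_of_atTop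
    exact ⟨n₀, fun n hn => rigid_of (hn₀ n hn)⟩

end Pool.Agent.Results.MP_37ff18_mp.SpanningForest
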