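import Pool.Agent.L5helper86.EA.Num

/-!
# Edwards-Anderson ground states on wider horns in `ℤ^d`

The sites are the points of `ℤ^(k + 1)`; the bond `(v, i)` joins `v` and `v + e_i`, as in the frozen
statement of the problem. The definitions are those of `UnboundedWidth`.
-/

set_option autoImplicit false

open MeasureTheory

namespace Pool.Agent.Results.MP_37ff18_mp.WiderHorns

/-- The horn: the points `v` of `ℤ^(k + 1)` with `v 0 ≥ 0` and `|v i| ≤ w (v 0)` for all `i ≠ 0`. -/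
def horn (k : ℕ) (w : ℕ → ℕ) : Set (Fin (k + 1) → ℤ) :=
  {v | 0 ≤ v 0 ∧ ∀ i : Fin k, |v i.succ| ≤ (w (v 0).toNat : ℤ)}

/-- A spin configuration on the region `R`: it is `1` or `-1` at the sites of `R`, and `0` at the
other sites (so that the bonds which leave `R` do not contribute to the energy). -/
def IsConfiguration {k : ℕ} (R : Set (Fin (k + 1) → ℤ)) (σ : (Fin (k + 1) → ℤ) → ℝ) : Prop :=
  (∀ v ∈ R, σ v = 1 ∨ σ v = -1) ∧ ∀ v, v ∉ R → σ v = 0

/-- `σ` is an infinite-volume ground state on `R` for the couplings `J`: every change at finitely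
many sites of `R` (at least one) increases the energy `- ∑ J (v, i) σ v σ (v + e_i)`. -/
def IsGroundState {k : ℕ} (R : Set (Fin (k + 1) → ℤ))
    (J : (Fin (k + 1) → ℤ) × Fin (k + 1) → ℝ) (σ : (Fin (k + 1) → ℤ) → ℝ) : Prop :=
  IsConfiguration R σ ∧ ∀ ρ : (Fin (k + 1) → ℤ) → ℝ, IsConfiguration R ρ →
    {v | ρ v ≠ σ v}.Finite → ρ ≠ σ →
      0 < ∑ᶠ e : (Fin (k + 1) → ℤ) × Fin (k + 1),
        J e * (σ e.1 * σ (e.1 + (Pi.single e.2 (1 : ℤ) : Fin (k + 1) → ℤ))
          - ρ e.1 * ρ (e.1 + (Pi.single e.2 (1 : ℤ) : Fin (k + 1) → ℤ)))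

/-- **Theorem.** Let `k` be a natural number, and let `μ` be a symmetric probability measure on `ℝ`
without atoms with `μ [-ε, ε] ≥ b ε ^ a` for all `0 < ε ≤ 1`, where `b > 0` and `a` is a natural
number. There is `c > 0` with the following property. Let `w` be any sequence of widths, not
necessarily monotone, with `w n ^ k * log (w n + 1) ≤ c log n` for all large `n`. Then for almost
every realisation of i.i.d. couplings of law `μ` on the bonds of `ℤ^(k + 1)` there is exactly one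
pair `σ, -σ` of ground states on the horn of width `w`. -/
theorem result (k : ℕ) (μ : Measure ℝ) [IsProbabilityMeasure μ]
    (hatom : ∀ x : ℝ, μ {x} = 0) (hsym : μ.map (fun x => -x) = μ)
    (a : ℕ) (b : ℝ) (hb : 0 < b)
    (hzero : ∀ ε : ℝ, 0 < ε → ε ≤ 1 → ENNReal.ofReal (b * ε ^ a) ≤ μ (Set.Icc (-ε) ε)) :
    ∃ c : ℝ, 0 < c ∧ ∀ w : ℕ → ℕ,
      (∀ᶠ n : ℕ in Filter.atTop,
        (w n : ℝ) ^ k * Real.log ((w n : ℝ) + 1) ≤ c * Real.log n) →
      ∀ᵐ J ∂(Measure.infinitePi fun _ : (Fin (k + 1) → ℤ) × Fin (k + 1) => μ),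
        ∃ σ : (Fin (k + 1) → ℤ) → ℝ, {ρ | IsGroundState (horn k w) J ρ} = {σ, -σ} := by
  obtain ⟨c0, N, hc0, -, -, h1⟩ := Pool.Agent.TH761.EA.two_windows μ hatom hsym
  set c : ℝ := min c0 1 with hcd
  have hc : 0 < c := lt_min hc0 one_pos
  have hc1 : c ≤ 1 := min_le_right _ _
  have hci : 0 < μ (Set.Ici c) := lt_of_lt_of_le h1 (measure_mono fun x hx =>
    (min_le_left _ _).trans hx.1.le)
  set g : ℝ := (μ (Set.Ici c)).toReal with hg
  have hgp : 0 < g := ENNReal.toReal_pos hci.ne' (measure_ne_top _ _)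
  have hg1 : g ≤ 1 := by
    have := ENNReal.toReal_mono (by simp) (prob_le_one (μ := μ) (s := Set.Ici c))
    simpa using this
  set β : ℝ := min b g with hβd
  have hβ : 0 < β := lt_min hb hgp
  have hβ1 : β ≤ 1 := (min_le_right _ _).trans hg1
  obtain ⟨c', hc', hnum⟩ := Pool.Agent.L5helper86.EA.numeric' k a hc hc1 hβ hβ1
  refine ⟨c', hc', fun w hw => ?_⟩
  have hdl : ∀ m : ℕ, 0 < Pool.Agent.L5helper86.EA.dl c m ∧
      Pool.Agent.L5helper86.EA.dl c m ≤ 1 := by
    intro m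
    have hm : (0 : ℝ) ≤ m := Nat.cast_nonneg m
    unfold Pool.Agent.L5helper86.EA.dl
    refine ⟨by positivity, ?_⟩
    rw [div_le_one (by positivity)]
    linarith
  have hev := hnum w hw
  have hoft := Pool.Agent.L5helper86.EA.often' (k := k) w μ (c := c) (by
    have htend : Filter.Tendsto (fun j : ℕ => 2 * (j + 1)) Filter.atTop Filter.atTop :=
      Filter.tendsto_atTop_mono (fun j => by simp only [id]; omega) Filter.tendsto_id
    filter_upwards [htend.eventually hev] with j hj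
    set n : ℕ := 2 * (j + 1) with hn
    have hz : (2 * ((j : ℤ) + 1)) = (n : ℤ) := by rw [hn]; push_cast; ring
    have hzt : (2 * ((j : ℤ) + 1)).toNat = n := by rw [hz]; exact Int.toNat_natCast n
    have hq1 : β * Pool.Agent.L5helper86.EA.dl c (w n) ^ a ≤ 1 := by
      have e1 : Pool.Agent.L5helper86.EA.dl c (w n) ^ a ≤ 1 :=
        pow_le_one₀ (hdl _).1.le (hdl _).2
      calc β * Pool.Agent.L5helper86.EA.dl c (w n) ^ a ≤ 1 * 1 :=
            mul_le_mul hβ1 e1 (pow_pos (hdl _).1 a).le zero_le_one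
        _ = 1 := one_mul _
    have hq0 : 0 ≤ β * Pool.Agent.L5helper86.EA.dl c (w n) ^ a :=
      mul_nonneg hβ.le (pow_pos (hdl _).1 a).le
    have hpr := Pool.Agent.L5helper86.EA.Ev_prob (k := k) w μ (c := c) hq0 hq1
      (2 * ((j : ℤ) + 1)) (by
        rw [hzt]
        refine le_trans (ENNReal.ofReal_le_ofReal ?_) (hzero _ (hdl (w n)).1 (hdl (w n)).2)
        exact mul_le_mul_of_nonneg_right (min_le_left _ _) (pow_pos (hdl _).1 a).le) (by
        rw [← ENNReal.ofReal_toReal (measure_ne_top μ (Set.Ici c))]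
        apply ENNReal.ofReal_le_ofReal
        have e1 : Pool.Agent.L5helper86.EA.dl c (w n) ^ a ≤ 1 :=
          pow_le_one₀ (hdl _).1.le (hdl _).2
        exact (mul_le_of_le_one_right hβ.le e1).trans (min_le_right _ _))
    rw [hzt] at hpr
    refine le_trans (ENNReal.ofReal_le_ofReal ?_) hpr
    refine le_trans (le_of_eq ?_) hj
    rw [hn]; push_cast; ring)
  filter_upwards [Pool.Agent.TH761.EB.gen_ae μ hatom ((Fin (k + 1) → ℤ) × Fin (k + 1)), hoft]
    with J hgen hp
  obtain ⟨σ, hσ⟩ := Pool.Agent.L5helper86.EA.exists_gs2 (a := Pool.Agent.TH761.EB.aa)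
    (b := Pool.Agent.TH761.EB.bb) (R := horn k w) Pool.Agent.TH761.EB.horn_fib
    Pool.Agent.L5helper86.EA.front hgen
  refine ⟨σ, ?_⟩
  ext ρ
  constructor
  · intro hρ
    refine Pool.Agent.TH761.EB.unique_horn (w := w) (J := J) hσ hρ fun n0 => ?_
    obtain ⟨z, hz, hT⟩ := hp n0
    exact ⟨z, hz, fun τ hτ v v' hv hv' hv0 hv0' =>
      Pool.Agent.L5helper86.EA.Ev_pin w hc (by omega) hT hτ hv hv' hv0 hv0'⟩
  · rintro (h | h)
    · rw [h]; exact hσ
    · rw [h]; exact hσ.neg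

end Pool.Agent.Results.MP_37ff18_mp.WiderHorns
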